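import Pool.Agent.Q21.KJ.Meas

/-!
MP_aeea9f_an: random Julia sets of the complexified Kan skew product. For every integer `L ≥ 2` and every complex `α`
with `0 < |α| < 1` the random Julia set `J_u` is disconnected for all `u` in a set of positive Lebesgue measure.
-/

namespace Pool.Agent.Results.MP_aeea9f_an.DisconnectedPositiveMeasure

open Complex Filter Topology MeasureTheory Set OnePoint

/-- `cos (2πu)` for `u` in the circle `ℝ/ℤ`, that is, the real part of `e^{2πiu}` -/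
noncomputable def cosT (u : UnitAddCircle) : ℝ := ((AddCircle.toCircle u : Circle) : ℂ).re

/-- the map `f_u (z) = z + α cos(2πu) z (1 - z)` of the Riemann sphere, with `f_u (∞) = ∞` -/
noncomputable def f (α : ℂ) (u : UnitAddCircle) : OnePoint ℂ → OnePoint ℂ :=
  OnePoint.map fun z => z + α * (cosT u : ℂ) * (z * (1 - z))

/-- the skew product `F (u, z) = (E (u), f_u (z))` with `E (u) = L u` mod `1` -/
noncomputable def F (L : ℕ) (α : ℂ) (p : UnitAddCircle × OnePoint ℂ) : UnitAddCircle × OnePoint ℂ :=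
  (L • p.1, f α p.1 p.2)

/-- `f^n_u (z)`, the second coordinate of `F^n (u, z)` -/
noncomputable def iter (L : ℕ) (α : ℂ) (n : ℕ) (u : UnitAddCircle) (z : OnePoint ℂ) : OnePoint ℂ :=
  ((F L α)^[n] (u, z)).2

/-- the chordal distance on the Riemann sphere -/
noncomputable def chordal : OnePoint ℂ → OnePoint ℂ → ℝ
  | ∞, ∞ => 0
  | ∞, (w : ℂ) => 1 / √(1 + ‖w‖ ^ 2)
  | (z : ℂ), ∞ => 1 / √(1 + ‖z‖ ^ 2)
  | (z : ℂ), (w : ℂ) => ‖z - w‖ / (√(1 + ‖z‖ ^ 2) * √(1 + ‖w‖ ^ 2))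

/-- `z` has a neighbourhood on which the family `f^n_u`, `n ≥ 1`, is normal: every sequence of members of the family
has a subsequence which converges uniformly in the chordal distance on this neighbourhood -/
def InFatou (L : ℕ) (α : ℂ) (u : UnitAddCircle) (z : OnePoint ℂ) : Prop :=
  ∃ U ∈ 𝓝 z, ∀ n : ℕ → ℕ, (∀ k, 1 ≤ n k) → ∃ φ : ℕ → ℕ, StrictMono φ ∧ ∃ g : OnePoint ℂ → OnePoint ℂ,
    ∀ ε : ℝ, 0 < ε → ∀ᶠ k in atTop, ∀ w ∈ U, chordal (iter L α (n (φ k)) u w) (g w) < ε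

/-- the random Julia set `J_u`, the complement of the random Fatou set -/
def julia (L : ℕ) (α : ℂ) (u : UnitAddCircle) : Set (OnePoint ℂ) := {z | ¬ InFatou L α u z}

open Pool.Agent.Q21.KJ

variable {L : ℕ} {α : ℂ} {u : UnitAddCircle}

/-- the coefficients along the orbit of `u` -/
noncomputable def cs (L : ℕ) (u : UnitAddCircle) (n : ℕ) : ℝ := cT (L ^ n • u)

theorem iter_fst (n : ℕ) (z : OnePoint ℂ) : ((F L α)^[n] (u, z)).1 = L ^ n • u := by
  induction n with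
  | zero => simp
  | succ n ih =>
    rw [Function.iterate_succ_apply']
    show L • ((F L α)^[n] (u, z)).1 = _
    rw [ih, pow_succ', mul_smul]

theorem iter_succ (n : ℕ) (z : OnePoint ℂ) : iter L α (n + 1) u z = f α (L ^ n • u) (iter L α n u z) := by
  unfold iter
  rw [Function.iterate_succ_apply']
  show f α ((F L α)^[n] (u, z)).1 ((F L α)^[n] (u, z)).2 = _
  rw [iter_fst]

theorem iter_coe (n : ℕ) (z : ℂ) : iter L α n u (z : OnePoint ℂ) = (q α (cs L u) n z : OnePoint ℂ) := by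
  induction n with
  | zero => rfl
  | succ n ih =>
    rw [iter_succ, ih]
    rfl

theorem iter_infty (n : ℕ) : iter L α n u ∞ = ∞ := by
  induction n with
  | zero => rfl
  | succ n ih => rw [iter_succ, ih]; rfl

theorem chordal_self (z : OnePoint ℂ) : chordal z z = 0 := by
  induction z using OnePoint.rec with
  | infty => rfl
  | coe z => show ‖z - z‖ / _ = 0; simp

theorem chordal_infty (z : ℂ) : chordal (z : OnePoint ℂ) ∞ = 1 / √(1 + ‖z‖ ^ 2) := rfl

theorem chordal_coe (z w : ℂ) :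
    chordal (z : OnePoint ℂ) (w : OnePoint ℂ) = ‖z - w‖ / (√(1 + ‖z‖ ^ 2) * √(1 + ‖w‖ ^ 2)) := rfl

theorem sqrt_ge (x : ℝ) (hx : 0 ≤ x) : x ≤ √(1 + x ^ 2) := by
  rw [Real.le_sqrt hx (by positivity)]; linarith

theorem sqrt_pos' (x : ℝ) : 0 < √(1 + x ^ 2) := Real.sqrt_pos.2 (by positivity)

theorem sqrt_le' (x : ℝ) (hx : 0 ≤ x) : √(1 + x ^ 2) ≤ 1 + x := by
  rw [Real.sqrt_le_left (by linarith)]; nlinarith

/-- a sequence of natural numbers has a constant or a divergent subsequence -/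
theorem subseq (n : ℕ → ℕ) : ∃ φ : ℕ → ℕ, StrictMono φ ∧
    ((∃ a, ∀ k, n (φ k) = a) ∨ Tendsto (fun k => n (φ k)) atTop atTop) := by
  by_cases h : Tendsto n atTop atTop
  · exact ⟨id, strictMono_id, Or.inr h⟩
  · rw [tendsto_atTop] at h
    push Not at h
    obtain ⟨b, hb⟩ := h
    have h1 : ∃ᶠ k in atTop, n k < b := by
      intro h2
      apply hb
      filter_upwards [h2] with k hk
      omega
    have h2 : ∃ a, ∃ᶠ k in atTop, n k = a := by
      by_contra hc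
      push Not at hc
      have h3 : ∀ a, ∀ᶠ k in atTop, n k ≠ a := fun a => by simpa using hc a
      have h4 : ∀ᶠ k in atTop, ∀ a ∈ Finset.range b, n k ≠ a := by
        rw [Filter.eventually_all_finset]
        exact fun a _ => h3 a
      obtain ⟨k, hk1, hk2⟩ := (h1.and_eventually h4).exists
      exact hk2 (n k) (Finset.mem_range.2 hk1) rfl
    obtain ⟨a, ha⟩ := h2
    obtain ⟨φ, hφ, hφ2⟩ := extraction_of_frequently_atTop ha
    exact ⟨φ, hφ, Or.inl ⟨a, hφ2⟩⟩

/-- points whose orbit leaves the disc of radius `2048 / |α|` at a good time lie in the Fatou set -/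
theorem inFatou_of (hα : 0 < ‖α‖) (hα1 : ‖α‖ < 1) (hc : ∀ n, |cs L u n| ≤ 1) {m : ℕ} (hm : Hg (cs L u) m)
    {x : OnePoint ℂ} {U : Set (OnePoint ℂ)} (hU : U ∈ 𝓝 x)
    (h : ∀ z : ℂ, (z : OnePoint ℂ) ∈ U → 2048 / ‖α‖ < ‖q α (cs L u) m z‖) : InFatou L α u x := by
  refine ⟨U, hU, fun n _ => ?_⟩
  obtain ⟨φ, hφ, h1 | h1⟩ := subseq n
  · obtain ⟨a, ha⟩ := h1
    refine ⟨φ, hφ, fun w => iter L α a u w, fun ε hε => Eventually.of_forall fun k w _ => ?_⟩
    rw [ha k, chordal_self]; exact hε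
  · refine ⟨φ, hφ, fun _ => ∞, fun ε hε => ?_⟩
    have h2 : Tendsto (fun i : ℕ => 2048 / ‖α‖ * (4 : ℝ) ^ i) atTop atTop :=
      Tendsto.const_mul_atTop (by positivity) (tendsto_pow_atTop_atTop_of_one_lt (by norm_num))
    obtain ⟨i, hi⟩ := (h2.eventually_gt_atTop (1 / ε)).exists_forall_of_atTop
    filter_upwards [h1.eventually_ge_atTop (m + i)] with k hk w hw
    induction w using OnePoint.rec with
    | infty => rw [iter_infty]; exact hε
    | coe z =>
      rw [iter_coe, chordal_infty]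
      obtain ⟨s, hs⟩ : ∃ s, n (φ k) = m + s := ⟨n (φ k) - m, by omega⟩
      have h3 := escape hα hα1 hc hm (h z hw) s
      have h4 := hi s (by omega)
      rw [hs]
      have h5 : 1 / ε < √(1 + ‖q α (cs L u) (m + s) z‖ ^ 2) :=
        h4.trans_le (h3.trans (sqrt_ge _ (norm_nonneg _)))
      rw [div_lt_comm₀ (sqrt_pos' _) hε]
      exact h5

theorem continuous_q (c : ℕ → ℝ) (n : ℕ) : Continuous (q α c n) := by
  induction n with
  | zero => exact continuous_id
  | succ n ih =>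
    show Continuous fun z => q α c n z + α * (c n : ℂ) * (q α c n z * (1 - q α c n z))
    fun_prop

theorem inFatou_coe (hα : 0 < ‖α‖) (hα1 : ‖α‖ < 1) (hc : ∀ n, |cs L u n| ≤ 1) {m : ℕ} (hm : Hg (cs L u) m)
    {z : ℂ} (h : 2048 / ‖α‖ < ‖q α (cs L u) m z‖) : InFatou L α u (z : OnePoint ℂ) := by
  refine inFatou_of hα hα1 hc hm (U := (fun w : ℂ => (w : OnePoint ℂ)) '' {w | 2048 / ‖α‖ < ‖q α (cs L u) m w‖}) ?_ ?_
  · rw [OnePoint.nhds_coe_eq]
    exact image_mem_map ((isOpen_lt continuous_const (continuous_q _ _).norm).mem_nhds h)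
  · rintro w ⟨w', hw', hww⟩
    have : w' = w := OnePoint.coe_injective hww
    rw [← this]; exact hw'

/-- large points have large images -/
theorem large (hα1 : ‖α‖ < 1) {c : ℕ → ℝ} (hc : ∀ n, |c n| ≤ 1) (n : ℕ) (M : ℝ) :
    ∃ M' : ℝ, ∀ z : ℂ, M' < ‖z‖ → M < ‖q α c n z‖ := by
  induction n generalizing M with
  | zero => exact ⟨M, fun z hz => hz⟩
  | succ n ih =>
    rcases eq_or_ne (‖α‖ * |c n|) 0 with h0 | h0
    · obtain ⟨M', hM'⟩ := ih M
      refine ⟨M', fun z hz => ?_⟩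
      have h1 : α * (c n : ℂ) = 0 := by
        rw [← norm_eq_zero, norm_co]; exact h0
      have h2 : q α c (n + 1) z = q α c n z := by rw [q_succ, h1]; ring
      rw [h2]; exact hM' z hz
    · have hp : 0 < ‖α‖ * |c n| := lt_of_le_of_ne (by positivity) (Ne.symm h0)
      obtain ⟨M', hM'⟩ := ih (max (max M 0) (3 / (‖α‖ * |c n|)))
      refine ⟨M', fun z hz => ?_⟩
      have h1 := hM' z hz
      have h2 : M < ‖q α c n z‖ := lt_of_le_of_lt ((le_max_left _ _).trans (le_max_left _ _)) h1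
      have h4 : 3 / (‖α‖ * |c n|) < ‖q α c n z‖ := lt_of_le_of_lt (le_max_right _ _) h1
      have h5 := q_step hα1 hc n z
      rw [div_lt_iff₀ hp] at h4
      have h6 : ‖q α c n z‖ * 1 ≤ ‖q α c n z‖ * (‖α‖ * |c n| * ‖q α c n z‖ - 2) :=
        mul_le_mul_of_nonneg_left (by linarith) (norm_nonneg _)
      linarith

theorem inFatou_infty (hα : 0 < ‖α‖) (hα1 : ‖α‖ < 1) (hc : ∀ n, |cs L u n| ≤ 1) {m : ℕ} (hm : Hg (cs L u) m) :
    InFatou L α u ∞ := by
  obtain ⟨M, hM⟩ := large (α := α) hα1 hc m (2048 / ‖α‖)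
  refine inFatou_of hα hα1 hc hm (U := ((fun w : ℂ => (w : OnePoint ℂ)) '' Metric.closedBall 0 M)ᶜ) ?_ ?_
  · refine IsOpen.mem_nhds ?_ ?_
    · rw [OnePoint.isOpen_compl_image_coe]
      exact ⟨Metric.isClosed_closedBall, isCompact_closedBall _ _⟩
    · rintro ⟨w, _, hw⟩
      exact OnePoint.coe_ne_infty w hw
  · intro z hz
    apply hM
    by_contra hc2
    exact hz ⟨z, by simpa using not_lt.1 hc2, rfl⟩

/-- the points that leave the disc of radius `2048 / |α|` at a good time `n ≥ 1` -/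
def Om (α : ℂ) (c : ℕ → ℝ) : Set ℂ := {z | ∃ n, 1 ≤ n ∧ Hg c n ∧ 2048 / ‖α‖ < ‖q α c n z‖}

theorem isOpen_Om (c : ℕ → ℝ) : IsOpen (Om α c) := by
  have : Om α c = ⋃ n : ℕ, ⋃ (_ : 1 ≤ n ∧ Hg c n), {z | 2048 / ‖α‖ < ‖q α c n z‖} := by
    ext z; simp [Om, and_assoc]
  rw [this]
  exact isOpen_iUnion fun n => isOpen_iUnion fun _ => isOpen_lt continuous_const (continuous_q _ _).norm

theorem tendsto_of_Om (hα : 0 < ‖α‖) (hα1 : ‖α‖ < 1) {c : ℕ → ℝ} (hc : ∀ n, |c n| ≤ 1) {z : ℂ} (hz : z ∈ Om α c) :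
    Tendsto (fun n => ‖q α c n z‖) atTop atTop := by
  obtain ⟨m, _, hm, h1⟩ := hz
  rw [← tendsto_add_atTop_iff_nat m]
  have h2 : Tendsto (fun i : ℕ => 2048 / ‖α‖ * (4 : ℝ) ^ i) atTop atTop :=
    Tendsto.const_mul_atTop (by positivity) (tendsto_pow_atTop_atTop_of_one_lt (by norm_num))
  refine tendsto_atTop_mono (fun i => ?_) h2
  rw [add_comm]
  exact escape hα hα1 hc hm h1 i

/-- boundary points of the basin of infinity lie in the Julia set -/
theorem not_inFatou (hα : 0 < ‖α‖) (hα1 : ‖α‖ < 1) (hc : ∀ n, |cs L u n| ≤ 1) (hf : ∃ᶠ n in atTop, Hg (cs L u) n)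
    {z : ℂ} (h1 : z ∉ Om α (cs L u)) (h2 : ∀ δ : ℝ, 0 < δ → ∃ w ∈ Om α (cs L u), ‖w - z‖ < δ) :
    ¬ InFatou L α u (z : OnePoint ℂ) := by
  rintro ⟨U, hU, hn⟩
  obtain ⟨n, hnm, hn2⟩ := extraction_of_frequently_atTop (hf.and_eventually (eventually_ge_atTop 1))
  obtain ⟨φ, hφ, g, hg⟩ := hn n (fun k => (hn2 k).2)
  set R := 2048 / ‖α‖ with hR
  have hRp : 0 < R := by positivity
  obtain ⟨k, hk⟩ := (hg (1 / (R + 2)) (by positivity)).exists
  set m := n (φ k) with hm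
  have h3 : ‖q α (cs L u) m z‖ ≤ R := by
    by_contra hcon
    exact h1 ⟨m, (hn2 _).2, (hn2 _).1, not_le.1 hcon⟩
  rw [OnePoint.nhds_coe_eq, mem_map] at hU
  have h4 : ∀ᶠ w in 𝓝 z, ‖q α (cs L u) m w‖ < R + 1 :=
    (continuous_q _ _).norm.continuousAt.eventually_lt continuousAt_const (by linarith)
  obtain ⟨δ, hδ, h5⟩ := Metric.eventually_nhds_iff.1 (h4.and hU)
  obtain ⟨w, hw1, hw2⟩ := h2 δ hδ
  obtain ⟨h6, h7⟩ := h5 (by rwa [dist_eq_norm] : dist w z < δ)
  have h7' : (w : OnePoint ℂ) ∈ U := h7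
  have htend := (tendsto_of_Om hα hα1 hc hw1).comp (hnm.tendsto_atTop.comp hφ.tendsto_atTop)
  have hgw : g (w : OnePoint ℂ) = ∞ := by
    by_contra hne
    obtain ⟨b, hb⟩ := OnePoint.ne_infty_iff_exists.1 hne
    have h8 := hg (1 / (4 * √(1 + ‖b‖ ^ 2))) (by have := sqrt_pos' ‖b‖; positivity)
    obtain ⟨j, hj1, hj2⟩ := (h8.and (htend.eventually_ge_atTop (2 * ‖b‖ + 1))).exists
    have hj3 := hj1 _ h7'
    rw [iter_coe, ← hb, chordal_coe] at hj3
    simp only [Function.comp] at hj2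
    set Z := q α (cs L u) (n (φ j)) w with hZ
    have e1 : ‖Z‖ / 2 ≤ ‖Z - b‖ := by
      have := norm_sub_norm_le Z b
      linarith [norm_nonneg b]
    have e2 : √(1 + ‖Z‖ ^ 2) ≤ 2 * ‖Z‖ := by
      refine (sqrt_le' _ (norm_nonneg _)).trans ?_
      linarith [norm_nonneg b]
    have hb0 := sqrt_pos' ‖b‖
    have hZ0 := sqrt_pos' ‖Z‖
    rw [div_lt_div_iff₀ (by positivity) (by positivity)] at hj3
    have e3 : √(1 + ‖Z‖ ^ 2) * √(1 + ‖b‖ ^ 2) ≤ 2 * ‖Z‖ * √(1 + ‖b‖ ^ 2) :=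
      mul_le_mul_of_nonneg_right e2 hb0.le
    have e4 : ‖Z‖ / 2 * (4 * √(1 + ‖b‖ ^ 2)) ≤ ‖Z - b‖ * (4 * √(1 + ‖b‖ ^ 2)) :=
      mul_le_mul_of_nonneg_right e1 (by positivity)
    nlinarith
  have h9 := hk _ h7'
  rw [hgw, iter_coe, chordal_infty] at h9
  have h10 : √(1 + ‖q α (cs L u) m w‖ ^ 2) ≤ R + 2 :=
    (sqrt_le' _ (norm_nonneg _)).trans (by linarith)
  have h11 : 1 / (R + 2) ≤ 1 / √(1 + ‖q α (cs L u) m w‖ ^ 2) :=
    one_div_le_one_div_of_le (sqrt_pos' _) h10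
  linarith

theorem q_congr {c : ℕ → ℝ} {z w : ℂ} (h : q α c 1 z = q α c 1 w) (n : ℕ) (hn : 1 ≤ n) :
    q α c n z = q α c n w := by
  induction n, hn using Nat.le_induction with
  | base => exact h
  | succ n _ ih => rw [q_succ, q_succ, ih]

theorem q_zero {c : ℕ → ℝ} (n : ℕ) : q α c n 0 = 0 := by
  induction n with
  | zero => rfl
  | succ n ih => rw [q_succ, ih]; ring

/-- **Random Julia sets of the complexified Kan skew product are disconnected with positive probability.** For every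
integer `L ≥ 2` and every complex number `α` with `0 < |α| < 1` there is a measurable set of positive Lebesgue
measure such that the random Julia set `J_u` is disconnected for all `u` in this set. -/
theorem result (L : ℕ) (hL : 2 ≤ L) (α : ℂ) (h0 : 0 < ‖α‖) (h1 : ‖α‖ < 1) :
    ∃ Λ : Set UnitAddCircle, MeasurableSet Λ ∧ 0 < volume Λ ∧ ∀ u ∈ Λ, ¬ IsPreconnected (julia L α u) := by
  refine ⟨Lam L, measurable_Lam hL, meas_Lam_pos hL, fun u hu hcon => ?_⟩
  obtain ⟨hc0, hc, hH, hf, hline⟩ := Lam_spec hL h0 h1 hu (c := cs L u) rfl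
  set b : ℂ := α * (cs L u 0 : ℂ) with hb
  have hb0 : b ≠ 0 := mul_ne_zero (norm_pos_iff.1 h0) (by exact_mod_cast hc0)
  have hbn : ‖b‖ < 1 := by
    rw [hb, norm_co]
    have := mul_le_mul_of_nonneg_left (hc 0) h0.le
    linarith
  have hb1 : 1 + b ≠ 0 := by
    intro h
    have : b = -1 := by linear_combination h
    rw [this] at hbn; simp at hbn
  set cc : ℂ := (1 + b) / (2 * b) with hcc
  have hcc0 : cc ≠ 0 := div_ne_zero hb1 (mul_ne_zero two_ne_zero hb0)
  have hccn : 0 < ‖cc‖ := norm_pos_iff.2 hcc0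
  -- the line is in the Fatou set
  have hlineF : ∀ z : ℂ, (z / cc).re = 1 → InFatou L α u (z : OnePoint ℂ) := by
    intro z hz
    have e1 : z = ln α (cs L u) (z / cc).im := by
      have : z / cc = 1 + ((z / cc).im : ℂ) * I := by
        apply Complex.ext <;> simp [hz]
      rw [ln, ← hb, ← hcc, ← this]
      field_simp
    refine inFatou_coe h0 h1 hc hH ?_
    rw [e1]
    exact hline _
  have hinf := inFatou_infty (L := L) (α := α) (u := u) h0 h1 hc hH
  -- the ray through zero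
  set p : ℝ → ℂ := fun t => -(t : ℂ) * cc with hp
  set p' : ℝ → ℂ := fun t => (2 + (t : ℂ)) * cc with hp'
  have hpc : Continuous p := by fun_prop
  have hpp : ∀ t, q α (cs L u) 1 (p t) = q α (cs L u) 1 (p' t) := by
    intro t
    have e1 : ∀ z, q α (cs L u) 1 z = z * (1 + b - b * z) := fun z => by rw [q_succ]; rfl
    rw [e1, e1]
    have e2 : 2 * b * cc = 1 + b := by rw [hcc]; field_simp
    simp only [hp, hp']
    linear_combination (2 * cc + 2 * (t : ℂ) * cc) * e2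
  have hOm : ∀ t, p t ∈ Om α (cs L u) ↔ p' t ∈ Om α (cs L u) := by
    intro t
    constructor
    · rintro ⟨n, hn1, hn2, hn3⟩
      exact ⟨n, hn1, hn2, by rwa [← q_congr (hpp t) n hn1]⟩
    · rintro ⟨n, hn1, hn2, hn3⟩
      exact ⟨n, hn1, hn2, by rwa [q_congr (hpp t) n hn1]⟩
  set T : Set ℝ := {t | 0 ≤ t ∧ p t ∉ Om α (cs L u)} with hT
  have hTc : IsClosed T := by
    have : T = Ici 0 ∩ p ⁻¹' (Om α (cs L u))ᶜ := by ext t; simp [hT]
    rw [this]
    exact isClosed_Ici.inter ((isOpen_Om _).isClosed_compl.preimage hpc)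
  have hT0 : (0 : ℝ) ∈ T := by
    refine ⟨le_rfl, ?_⟩
    rintro ⟨n, _, _, hn⟩
    have : p 0 = 0 := by simp [hp]
    rw [this, q_zero, norm_zero] at hn
    have : 0 < 2048 / ‖α‖ := by positivity
    linarith
  obtain ⟨M, hM⟩ := large (α := α) h1 hc 14 (2048 / ‖α‖)
  have hTb : BddAbove T := by
    refine ⟨max 0 (M / ‖cc‖), fun t ht => ?_⟩
    by_contra hlt
    rw [not_le] at hlt
    apply ht.2
    refine ⟨14, by norm_num, hH, hM _ ?_⟩
    have e1 : ‖p t‖ = t * ‖cc‖ := by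
      simp only [hp]
      rw [norm_mul, norm_neg, Complex.norm_real, Real.norm_eq_abs, abs_of_nonneg ht.1]
    rw [e1]
    have e2 : M / ‖cc‖ < t := lt_of_le_of_lt (le_max_right _ _) hlt
    rwa [div_lt_iff₀ hccn] at e2
  set s := sSup T with hs
  have hsT : s ∈ T := hTc.csSup_mem ⟨0, hT0⟩ hTb
  have hsup : ∀ t, s < t → p t ∈ Om α (cs L u) := by
    intro t ht
    by_contra hn
    have : t ∈ T := ⟨hsT.1.trans ht.le, hn⟩
    exact absurd (le_csSup hTb this) (not_le.2 ht)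
  have hJ1 : (p s : OnePoint ℂ) ∈ julia L α u := by
    refine not_inFatou h0 h1 hc hf hsT.2 (fun δ hδ => ?_)
    refine ⟨p (s + δ / (2 * ‖cc‖)), hsup _ (lt_add_of_pos_right _ (by positivity)), ?_⟩
    have e1 : p (s + δ / (2 * ‖cc‖)) - p s = -((δ / (2 * ‖cc‖) : ℝ) : ℂ) * cc := by
      simp only [hp]; push_cast; ring
    rw [e1, norm_mul, norm_neg, Complex.norm_real, Real.norm_eq_abs, abs_of_pos (by positivity)]
    have : δ / (2 * ‖cc‖) * ‖cc‖ = δ / 2 := by field_simp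
    rw [this]; linarith
  have hJ2 : (p' s : OnePoint ℂ) ∈ julia L α u := by
    refine not_inFatou h0 h1 hc hf (fun h => hsT.2 ((hOm s).2 h)) (fun δ hδ => ?_)
    refine ⟨p' (s + δ / (2 * ‖cc‖)), (hOm _).1 (hsup _ (lt_add_of_pos_right _ (by positivity))), ?_⟩
    have e1 : p' (s + δ / (2 * ‖cc‖)) - p' s = ((δ / (2 * ‖cc‖) : ℝ) : ℂ) * cc := by
      simp only [hp']; push_cast; ring
    rw [e1, norm_mul, Complex.norm_real, Real.norm_eq_abs, abs_of_pos (by positivity)]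
    have : δ / (2 * ‖cc‖) * ‖cc‖ = δ / 2 := by field_simp
    rw [this]; linarith
  -- the two half planes
  set V1 : Set (OnePoint ℂ) := (fun w : ℂ => (w : OnePoint ℂ)) '' {z | (z / cc).re < 1} with hV1
  set V2 : Set (OnePoint ℂ) := (fun w : ℂ => (w : OnePoint ℂ)) '' {z | 1 < (z / cc).re} with hV2
  have hcont : Continuous fun z : ℂ => (z / cc).re := Complex.continuous_re.comp (continuous_id.div_const cc)
  have hV1o : IsOpen V1 := OnePoint.isOpen_image_coe.2 (isOpen_lt hcont continuous_const)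
  have hV2o : IsOpen V2 := OnePoint.isOpen_image_coe.2 (isOpen_lt continuous_const hcont)
  have hsub : julia L α u ⊆ V1 ∪ V2 := by
    intro x hx
    induction x using OnePoint.rec with
    | infty => exact absurd hinf hx
    | coe z =>
      rcases lt_trichotomy (z / cc).re 1 with h | h | h
      · exact Or.inl ⟨z, h, rfl⟩
      · exact absurd (hlineF z h) hx
      · exact Or.inr ⟨z, h, rfl⟩
  have hs0 : 0 ≤ s := hsT.1
  have hn1 : (julia L α u ∩ V1).Nonempty := by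
    refine ⟨_, hJ1, p s, ?_, rfl⟩
    show (p s / cc).re < 1
    have : p s / cc = ((-s : ℝ) : ℂ) := by simp only [hp]; push_cast; field_simp
    rw [this, Complex.ofReal_re]; linarith
  have hn2 : (julia L α u ∩ V2).Nonempty := by
    refine ⟨_, hJ2, p' s, ?_, rfl⟩
    show 1 < (p' s / cc).re
    have : p' s / cc = ((2 + s : ℝ) : ℂ) := by simp only [hp']; push_cast; field_simp
    rw [this, Complex.ofReal_re]; linarith
  obtain ⟨x, _, ⟨z, hz1, hz2⟩, ⟨w, hw1, hw2⟩⟩ := hcon V1 V2 hV1o hV2o hsub hn1 hn2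
  have : z = w := OnePoint.coe_injective (hz2.trans hw2.symm)
  rw [this] at hz1
  simp only [mem_setOf_eq] at hz1 hw1
  linarith

end Pool.Agent.Results.MP_aeea9f_an.DisconnectedPositiveMeasure
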